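import Pool.Agent.H5.DG4.Main5

/-!
# The Green–Griffiths–Lang conjecture and the second main theorem with truncation level one for
# quasi-projective varieties with a partially ramified morphism to an arbitrary projective variety

Let `Y ⊆ ℙ^M` be a closed irreducible variety, given by the homogeneous prime ideal `P`, and let
`G 0, …, G (m - 1)` be forms of degrees at most `δ` whose sections `Y ∩ {G j = 0}` are integral
schemes, pairwise different (`G i - c G j` does not vanish identically on `Y`).  A set `J` of indices
is *good* if it has at least `N₀` elements and at most `|J| / N₀` of the `G j`, `j ∈ J`, vanish at any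
point of `Y`.  `PartialTheorem A N₀ P G Δ` is the following statement.

* **Second main theorem** (`TruncatedSMT`): for all good sets `J` and all holomorphic maps `h` from `ℂ`
  to `Y`, not into `Δ = 0` or some `G j = 0`,
  `(1 - 1 / A) (∑ j ∈ J, deg (G j)) T(r) ≤ ∑ j ∈ J, N¹(r, G j) + C (1 + log r)` for all `r ≥ 1` outside of
  a set of finite logarithmic measure, where the counting functions count all points once.
* Let `U` be a quasi-projective variety (`U = variety I \ B`, `I` a homogeneous prime ideal, `B` a
  closed set) and let `f : U → Y` be a morphism with finite fibres outside of a closed set `Z`.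
  Consider the sections `t` of `f^* O(a)`, integral over the homogeneous coordinate ring of `Y`, which
  vanish at least `k` times along the *reduced* inverse images of the hypersurfaces `G j = 0`,
  `j ∈ J`, where `J` is a good set, `k ≥ 1` and `a ≤ (1 - 1 / A) k ∑ j ∈ J, deg (G j)`
  (`RamifiedSection`).  Let `Ξ` be the set of the points of `U` which lie in `Z`, or whose image lies
  in `Δ = 0`, or where all these sections vanish (`excSet`).  Then holomorphic maps from the punctured
  disc (from `ℂ`) to `U`, not into `Ξ`, extend (are constant), the closed subvarieties of `U` of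
  positive dimension, not contained in `Ξ`, are of log general type, and all four properties of the
  Green–Griffiths–Lang conjecture hold for `U`, if `U` is not contained in `Ξ`; this is true if `U` has
  the dimension of `Y` and is not contained in `Z`, and some of the sections is not zero.

**Main theorem**: for all `M`, `δ` and `A ≥ 2` there is a number `N₀` such that this is true for all
`Y ⊆ ℙ^M` and all such forms `G j`, for some form `Δ`, not identically zero on `Y`.

The hypothesis on the sections is a hypothesis on the ramification: if `U` is projective and `U` and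
`Y` are smooth, let `R` be the sum over `j ∈ J` of the divisors `f^* (G j = 0)` minus the reduced
divisors with the same supports.  There are sections as above, not zero, if the divisor
`R - (1 / A) (∑ j ∈ J, deg (G j)) f^* O(1)` is `ℚ`-effective.  So the inverse images may have many reduced
components, and no component is required to be multiple over any given hypersurface.

If all the inverse images of the `G j = 0` have multiplicities at least two the sections are not needed
(`MorphismTheorem 2 P G Δ`: `Ξ` consists of the points in `Z` or over `Δ = 0`) and the position of the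
hypersurfaces is no condition if there are *models* at the points `y` of `Y` where more than `m / N₀` of
the `G j` vanish (`HasModels`): a model is a projective variety `X` of the dimension of `Y`, at
least `1`, with a finite morphism `X → Y` such that the inverse images of all the hypersurfaces
`G j = 0` have multiplicities at least two outside of a closed set `B`, and over `y` the variety `X`
is smooth and there are no points of `B`.  In particular the four properties hold for every smooth
projective variety with a finite morphism to `Y` which is ramified over `m ≥ N₀` such hypersurface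
sections, without any hypothesis on their position.

**Complete intersections**: for all `r ≥ 1` and `A ≥ 2` there is a number `N₀` such that the four
properties hold for all closed irreducible `X ⊆ ℙ^N` of dimension `r`, `N + 1 ≥ N₀`, on which `N - r`
forms `∑ j, a i j * x j ^ e * L j (x)` vanish, `L j` forms of degree `s`, `e ≥ 2`, `e + s ≤ A (e - 1)`,
such that the `x j L j` have no common zeros on `X` and any `N - r` columns of the matrix `a` are
independent (this is true if the forms define a smooth complete intersection).

For hyperplanes in general position in `Y = ℙ^r` and multiplicities at least `q` one can take `Δ = 1`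
if their points lie on no hypersurface of degree `b`, where `r (q + 1) < b (q - 1)`.

All four properties hold for every smooth complete intersection of dimension `r` in `ℙ^N`,
`N + 1 ≥ N₀ (r)`, which is given by diagonal forms of any degree `d ≥ 2`, and they hold with
the empty exceptional set for general diagonal forms if `N + 1 ≥ binom(r + b, r)` for some `b` with
`r (d + 1) < b (d - 1)`; one can take `b = 3 r + 1` for all `d`.
-/

open MvPolynomial Filter Topology
open Pool.Agent.H17 (PN VanishesAt)
open Pool.Agent.H17LG.Variety (FunField)
open Pool.Agent.H5.DG (Homog variety IntegralSection NoHypersurface linearForm diagForm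
  SmoothIntersection main_hyperplane diag_smooth diag_general)
open Pool.Agent.H5.DG3
open Pool.Agent.H5.DG4 (PartialTheorem IndependentColumns ciForm main_final main_ci)
open Pool.Agent.H39.SZ (HasModels)

namespace Pool.Agent.Results.MP_64ff02_ag.DiagonalGGL

/-- Any `r + 1` of the linear forms `l j` are linearly independent. -/
def GeneralPosition {m r : ℕ} (l : Fin m → Fin (r + 1) → ℂ) : Prop :=
  ∀ s : Fin (r + 1) → Fin m, Function.Injective s → LinearIndependent ℂ fun i => l (s i)

/-- **Main theorem.** -/
theorem result :
    (∀ M δ A : ℕ, 2 ≤ A → ∃ N₀ : ℕ, 1 ≤ N₀ ∧ ∀ (m : ℕ) (P : Ideal (MvPolynomial (Fin (M + 1)) ℂ))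
      [P.IsPrime] (G : Fin m → MvPolynomial (Fin (M + 1)) ℂ), Homog P →
      (∀ j, ∃ e, 1 ≤ e ∧ e ≤ δ ∧ (G j).IsHomogeneous e) →
      (∀ i j, i ≠ j → ∀ c : ℂ, G i - C c * G j ∉ P) → (∀ j, IntegralSection P (G j)) →
      ∃ (d : ℕ) (Δ : MvPolynomial (Fin (M + 1)) ℂ), Δ ∉ P ∧ Δ.IsHomogeneous d ∧
        PartialTheorem A N₀ P G Δ ∧
        (N₀ ≤ m → HasModels (m / N₀) P G → MorphismTheorem 2 P G Δ)) ∧
    ∀ r : ℕ, 1 ≤ r →
      (∀ A : ℕ, 2 ≤ A → ∃ N₀ : ℕ, ∀ N c e s : ℕ, c + r = N → N₀ ≤ N + 1 → 2 ≤ e →
        e + s ≤ A * (e - 1) → ∀ (a : Fin c → Fin (N + 1) → ℂ)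
        (L : Fin (N + 1) → MvPolynomial (Fin (N + 1)) ℂ), (∀ j, (L j).IsHomogeneous s) →
        IndependentColumns a ∨ SmoothIntersection (ciForm a e L) →
        ∀ (I : Ideal (MvPolynomial (Fin (N + 1)) ℂ)) [I.IsPrime], Homog I →
          (∀ i, ciForm a e L i ∈ I) → (∀ x ∈ variety I, ∃ j, ¬ VanishesAt (X j * L j) x) →
          (∃ z : Fin r → FunField I, IsTranscendenceBasis ℂ z) →
          ∃ Ξ : Set (PN N), FourProperties I ∅ r Ξ) ∧
      (∀ (m : ℕ) (l : Fin m → Fin (r + 1) → ℂ), GeneralPosition l →
        ∀ q b : ℕ, 2 ≤ q → r * (q + 1) < b * (q - 1) → NoHypersurface b l →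
          MorphismTheorem q ⊥ (fun j => linearForm (l j)) 1) ∧
      ∃ N₀ : ℕ, ∀ N c d : ℕ, c + r = N → 2 ≤ d →
        (N₀ ≤ N + 1 → ∀ a : Fin c → Fin (N + 1) → ℂ, SmoothIntersection (diagForm a d) →
          ∃ Ξ : Set (PN N), HasFourProperties r (diagForm a d) Ξ) ∧
        ∀ b : ℕ, r * (d + 1) < b * (d - 1) → (r + b).choose r ≤ N + 1 →
          ∃ D : MvPolynomial (Fin c × Fin (N + 1)) ℂ, D ≠ 0 ∧
            ∀ a : Fin c → Fin (N + 1) → ℂ, eval (fun p => a p.1 p.2) D ≠ 0 →
              HasFourProperties r (diagForm a d) ∅ := by
  refine ⟨main_final, fun r hr => ⟨?_, fun m l hl q b hq hb hs =>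
    morphisms_of_spans hr hq hb hl hs, ?_⟩⟩
  · obtain ⟨n, rfl⟩ : ∃ n, r = n + 1 := ⟨r - 1, by omega⟩
    intro A hA
    obtain ⟨N₀, h⟩ := main_ci n A hA
    refine ⟨N₀, fun N c e s hc hN he hes a L hL ha I _ hI hf hne hz => ?_⟩
    obtain ⟨Ξ, hΞ, -⟩ := h N c e s hc hN he hes a L hL ha I hI hf hne hz
    exact ⟨Ξ, hΞ⟩
  · obtain ⟨n, rfl⟩ : ∃ n, r = n + 1 := ⟨r - 1, by omega⟩
    obtain ⟨N₀, hN₀, hmain⟩ := main_hyperplane n
    refine ⟨N₀, fun N c d hc hd => ⟨fun hN a hs => ?_, fun b hb hN => ?_⟩⟩
    · obtain ⟨Ξ, h, -⟩ := diag_smooth hmain hN hc hd hs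
      exact ⟨Ξ, hasFour_of_old h⟩
    · obtain ⟨D, hD, h⟩ := diag_general hb hN hc hd
      exact ⟨D, hD, fun a ha => hasFour_of_old (h a ha).1⟩

end Pool.Agent.Results.MP_64ff02_ag.DiagonalGGL
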