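import Pool.Agent.H62.FC.CurveIdeal

/-!
# The Green–Griffiths–Lang conjecture for the Fermat covers of all projective varieties

Let `A l` be forms with at most `k` monomials each, in which the exponents of the coordinates `x i`,
`i ∉ O`, are divisible by `d`, and let `X` be the set of the points of their common zero locus with
`x i ≠ 0` for `i ∈ O`; for instance `X` is the inverse image of an arbitrary closed subvariety of
`ℙ^N` under `(x i) ↦ (x i ^ d)`.  If `d` is large compared to `k` and to the dimension then the four
properties of the Green–Griffiths–Lang conjecture are equivalent for every irreducible component of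
`X`: all of them hold if no one-parameter group of the torus acts on the component, and otherwise
all of them fail.  The exceptional set of `X` is the Zariski closure of the union of the monomial
curves in `X`.
-/

open MvPolynomial Topology Filter
open Pool.Agent.H17 (PN HolomorphicInto puncturedDisc PseudoBrodyHyperbolic PseudoPicardHyperbolic)
open Pool.Agent.H17LG.Variety (FunField)
open Pool.Agent.H62.FC

namespace Pool.Agent.Results.MP_64ff02_ag.FermatCovers

/-- **Main theorem.**  Let `A l` be finitely many forms with at most `k` monomials each, in which the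
exponents of the coordinates `x i`, `i ∉ O`, are divisible by `d > k (k - 2)`, and let
`X = openLocus A O` be the set of the common zeros with `x i ≠ 0` for `i ∈ O`.

* The Zariski closure `excSet X` of the union of the monomial curves in `X` is the Zariski closure of
  the union of the entire curves in `X`.
* Every holomorphic map from the punctured disc to `X`, not into `excSet X`, extends to the disc.
* Every closed irreducible subvariety of `X` of dimension `w ≥ 1`, not contained in `excSet X`, is of
  log general type if `w k (k - 1) (k - 2) < 2 d`.
* If this inequality holds for the dimensions of all irreducible components of `X`, then `excSet X`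
  is the Zariski closure of the union of the closed irreducible subvarieties of `X` of positive
  dimension which are not of log general type.
* For every irreducible component `Y` of `X` of dimension `r ≥ 1` with `r k (k - 1) (k - 2) < 2 d`
  the following are equivalent: `Y` is of log general type; `Y` is pseudo Picard hyperbolic; `Y` is
  pseudo Brody hyperbolic; `Y` is strongly of log general type; `Y` is not contained in `excSet X`;
  no non-trivial one-parameter group of the torus acts on `Y`. -/
theorem result {N k d c : ℕ} (A : Fin c → MvPolynomial (Fin (N + 1)) ℂ) (e : Fin c → ℕ)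
    (O : Finset (Fin (N + 1))) (hA : ∀ l, (A l).IsHomogeneous (e l))
    (hk : ∀ l, (A l).support.card ≤ k) (hdiv : ∀ l, ∀ a ∈ (A l).support, ∀ i ∉ O, d ∣ a i)
    (hd : k * (k - 2) < d) :
    closureIn (openLocus A O) (entireCurves (openLocus A O)) = excSet (openLocus A O) ∧
    (∀ f : ℂ → PN N, HolomorphicInto f puncturedDisc →
      (∀ z ∈ puncturedDisc, f z ∈ openLocus A O) →
      (∃ z ∈ puncturedDisc, f z ∉ excSet (openLocus A O)) →
      ∃ g : ℂ → PN N, HolomorphicInto g (Metric.ball 0 1) ∧ ∀ z ∈ puncturedDisc, g z = f z) ∧
    (∀ (P : Ideal (MvPolynomial (Fin (N + 1)) ℂ)) [P.IsPrime], Homog P → (∀ l, A l ∈ P) →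
      (∀ i ∈ O, X i ∉ P) → ¬ primeLocus P O ⊆ excSet (openLocus A O) → ∀ w, 1 ≤ w →
      (∃ z : Fin w → FunField P, IsTranscendenceBasis ℂ z) →
      w * k * (k - 1) * (k - 2) < 2 * d → LogGeneralType P O w) ∧
    ((∀ (P : Ideal (MvPolynomial (Fin (N + 1)) ℂ)) [P.IsPrime],
      P ∈ (Ideal.span (Set.range A)).minimalPrimes → (∀ i ∈ O, X i ∉ P) → ∀ r,
      (∃ z : Fin r → FunField P, IsTranscendenceBasis ℂ z) → r * k * (k - 1) * (k - 2) < 2 * d) →
      closureIn (openLocus A O) (unionNotLogGeneralType A O) = excSet (openLocus A O)) ∧
    (∀ (P : Ideal (MvPolynomial (Fin (N + 1)) ℂ)) [P.IsPrime],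
      P ∈ (Ideal.span (Set.range A)).minimalPrimes → (∀ i ∈ O, X i ∉ P) → ∀ r, 1 ≤ r →
      (∃ z : Fin r → FunField P, IsTranscendenceBasis ℂ z) →
      r * k * (k - 1) * (k - 2) < 2 * d →
      List.TFAE [LogGeneralType P O r, PseudoPicardHyperbolic (primeLocus P O),
        PseudoBrodyHyperbolic (primeLocus P O), StronglyLogGeneralType P O,
        ¬ primeLocus P O ⊆ excSet (openLocus A O),
        ∀ n : Fin (N + 1) → ℤ, StableUnder (primeLocus P O) n →
          ∀ i j, X i ∉ P → X j ∉ P → n i = n j]) := by
  refine ⟨closure_entireCurves hA hk hdiv hd, ?_, ?_, ?_, ?_⟩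
  · intro f hf hfX hne
    exact picard hA hk hdiv hd hf hfX hne
  · intro P _ hP hAP hO hsub w hw hz hwd
    exact logGeneralType_of_not_subset hP hA hk hdiv hO hAP hsub hw hz hwd
  · intro hdim
    exact closure_unionNotLogGeneralType hA hk hdiv hdim
  · intro P _ hP hO r hr hz hrd
    exact component_tfae hA hk hdiv hd hP hO hr hz hrd

end Pool.Agent.Results.MP_64ff02_ag.FermatCovers
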