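import Pool.Agent.H94.G5T.M173

/-!
# Projective manifolds of dimension `n + 1` over simple complex tori of dimension `n`, with arbitrary singular fibres

`X` is a smooth projective variety of dimension `n + 1`, `n = k + 1 ≥ 1`, and `u` is a holomorphic map from `X` to a simple complex torus `A = ℂ^n / Λ`, with arbitrary singular
fibres and arbitrary variation.  `D ⊆ ℂ^n` is a proper, `Λ`-invariant analytic subset outside which `u` is a submersion; outside a subset `B`, nowhere dense in `D`, with local
equations `D = {s = 0}`, `B = {s = t = 0}` (`IsSmall`; if `n = 2` also: `B` finite modulo `Λ`), the set `D` is smooth and `u` is `(s ^ a * t ^ b, r)` in local coordinates.  There are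
top forms with values in the dual of a positive line bundle without common zeros outside `D` (`HasTopForms`); a continuous metric `p` on `X`, positive outside `D`, for which
`log p (f') - log |f| + C |u f|²` is subharmonic for all holomorphic curves `f` (`HasMetric`); and algebraic jet differentials on the curves over the lines of `ℂ^n` with values in
`O(-1)` (`HasJetForms`).  Then `X` is hyperbolic modulo a hypersurface section `{Q = 0}`, and if `X` is of general type then `X`, and the quasi-projective varieties
of log general type which virtually dominate `X`, have the properties of the Green–Griffiths–Lang conjecture (`IsHyperbolic`).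

The metric: for symmetric differentials `S j` with values in `O(-1)` and in a semipositive line bundle of the torus, without common zeros outside `D` (families of maximal variation),
`p = max |S j|` is such a metric.  For an arbitrary family of curves of genus at least `2` take `p = (g² + |du|²)^(m/2) e^φ |θ|^K`, with `g` the pull back of a negatively curved
metric of the moduli stack of pointed curves, `φ` the logarithm of the maximum of the norms of sections of `ω^q ⊗ O(-1)` (`ω` the relative canonical bundle), and `θ` a theta function
which is `0` on `D`.
-/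

open MvPolynomial
open Pool.Agent.H17 (PN VanishesAt)
open Pool.Agent.H62.FC (Homog)
open Pool.Agent.H17LG.Variety (FunField)
open Pool.Agent.H17EF (projVar)
open Pool.Agent.AD (IsHolomorphicTorusMap)
open Pool.Agent.TGF (Cn)
open Pool.Agent.G3F (HasTopForms)
open Pool.Agent.G4F (IsSimple IsSingularLocus HasMetric HasJetForms IsHyperbolic)

noncomputable section

namespace Pool.Agent.Results.MP_64ff02_ag.FibrationsOverAbelian

/-- **Main theorem.**  `P` gives a smooth projective variety `X` of dimension `k + 2`; `u` is a holomorphic map to the simple complex torus `ℂ^(k+1) / Λ`. -/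
theorem result {N k : ℕ} (P : Ideal (MvPolynomial (Fin (N + 1)) ℂ)) [P.IsPrime] (hP : Homog P)
    (hdim : ∃ z : Fin (k + 2) → FunField P, IsTranscendenceBasis ℂ z) (hsmooth : Pool.Agent.AD.NC.IsSmooth P (k + 2))
    (Λ : AddSubgroup (Cn (k + 1))) [DiscreteTopology Λ] (hspan : Submodule.span ℝ (Λ : Set (Cn (k + 1))) = ⊤) (hsimple : IsSimple Λ)
    (u : PN N → Cn (k + 1) ⧸ Λ) (hu : IsHolomorphicTorusMap (projVar P) Λ u) (D B : Set (Cn (k + 1))) (hD : IsSingularLocus (projVar P) Λ u D B)
    (hR : ∃ (e : ℕ) (R : MvPolynomial (Fin (N + 1)) ℂ), R.IsHomogeneous e ∧ R ∉ P ∧ ∀ x ∈ projVar P, (∃ y ∈ D, u x = (y : Cn (k + 1) ⧸ Λ)) → VanishesAt R x)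
    (hE : HasTopForms (projVar P) Λ u D) (hM : HasMetric (projVar P) Λ u D) (hJ : HasJetForms (projVar P) Λ u D) :
    ∃ Q : MvPolynomial (Fin (N + 1)) ℂ, IsHyperbolic P Λ u D Q :=
  Pool.Agent.G4.V.main P hP hdim hsmooth Λ hspan hsimple u hu D B hD hR hE hM hJ

end Pool.Agent.Results.MP_64ff02_ag.FibrationsOverAbelian
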