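import Pool.Agent.H15.OC.Class

/-!
# The Green–Griffiths–Lang conjecture for quasi-projective surfaces over `ℂ^*` or an elliptic curve

The class `OverGroup` is the smallest class of quasi-projective surfaces which contains the basic surfaces (`IsBasicOver`): `U` is the complement of a curve
in a smooth projective surface `X` with a nonconstant map `u` to `G`, an elliptic curve or `ℂ^*`, and either

* there are logarithmic `2`-forms which vanish on fibres of `u` (`HasFormsAlong` over an elliptic curve; `IsModel`, `HasForms`, `IsRegularInto` over `ℂ^*`), or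
* there is a rational function on `X`, independent of `u`, which omits `0`, `1`, `∞` on `U` outside finitely many fibres, and omits there a function of `u` or has
  only finitely many values on one fibre (`HasFunctionOver`), or
* `G` is an elliptic curve, and `U` is the complement of hypersurfaces without common entire curves (`IsComplement`);

and which contains `U` if it contains a surface `U'` of log general type with a dominant regular map `U → U'`, or a modification of `U`, or an unramified covering
of `U`, or an orbifold covering of `U`.  The surfaces of log general type in this class have the four properties of the conjecture.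
-/

open MvPolynomial
open Pool.Agent.H17 (PN VanishesAt ZariskiClosedIn HolomorphicInto puncturedDisc)
open Pool.Agent.H62.FC (Homog)
open Pool.Agent.H62.SA (locVar OnBd)
open Pool.Agent.H17LG.Variety (FunField IsLogGeneralType)
open Pool.Agent.H19Q (QSurface)
open Pool.Agent.H19E.V4 (pts cl SmoothOn Projective Rep)
open Pool.Agent.H15.OC (OverGroup IsBasicOver)

noncomputable section

namespace Pool.Agent.Results.MP_64ff02_ag.OverCurves

variable {N : ℕ}

/-- The four properties of the Green–Griffiths–Lang conjecture for the quasi-projective surface `U`, with the exceptional set `Ξ`. -/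
structure FourProperties (U : QSurface) (Ξ : Set (PN U.N)) : Prop where
  /-- the set `Ξ` is Zariski closed in `U` and different from `U` -/
  properClosed : ZariskiClosedIn (pts U) Ξ ∧ Ξ ≠ pts U
  /-- `U` is of log general type -/
  logGeneralType : U.LogGeneralType
  /-- every holomorphic map from the punctured disc to `U` which is not a map into `Ξ` extends to a holomorphic map from the disc to `ℙ^N` -/
  picard : ∀ f : ℂ → PN U.N, HolomorphicInto f puncturedDisc → (∀ z ∈ puncturedDisc, f z ∈ pts U) → (∃ z ∈ puncturedDisc, f z ∉ Ξ) →
    ∃ g : ℂ → PN U.N, HolomorphicInto g (Metric.ball 0 1) ∧ ∀ z ∈ puncturedDisc, g z = f z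
  /-- every non-constant entire curve in `U` lies in `Ξ` -/
  brody : ∀ f : ℂ → PN U.N, HolomorphicInto f Set.univ → (∀ z, f z ∈ pts U) → (∃ z w, f z ≠ f w) → ∀ z, f z ∈ Ξ
  /-- every closed subvariety of `U` of positive dimension which is not contained in `Ξ` is of log general type -/
  strongly : ∀ (Q : Ideal (MvPolynomial (Fin (U.N + 1)) ℂ)) [Q.IsPrime], Homog Q → U.P ≤ Q → ¬ locVar Q U.G ⊆ Ξ →
    ∀ k, 1 ≤ k → (∃ z : Fin k → FunField Q, IsTranscendenceBasis ℂ z) → IsLogGeneralType (OnBd Q U.G (k := k))

/-- the union of the images of the non-constant entire curves in `X` -/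
def entireCurves (X : Set (PN N)) : Set (PN N) :=
  {x | ∃ f : ℂ → PN N, HolomorphicInto f Set.univ ∧ (∀ z, f z ∈ X) ∧ (∃ z w, f z ≠ f w) ∧ ∃ z, f z = x}

/-- the Zariski closure of `S` in `X` -/
def closureIn (X S : Set (PN N)) : Set (PN N) :=
  {x | x ∈ X ∧ ∀ (k : ℕ) (Q : MvPolynomial (Fin (N + 1)) ℂ), Q.IsHomogeneous k → (∀ y ∈ S, VanishesAt Q y) → VanishesAt Q x}

/-- `X` is Kobayashi hyperbolic modulo the set of the zeros of `Q`, a form of degree `D`: for every holomorphic map `f` from the unit disc to `X`, with a
lift `F` near `0`, the length of the derivative of `f` at `0` with respect to the Fubini–Study metric (that is, the distance of `F' 0` from the line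
through `F 0`, divided by the norm of `F 0`), multiplied by a power of `|Q (F 0)| / |F 0| ^ D`, is at most `C`. -/
def KobayashiHyperbolicModulo (X : Set (PN N)) (Q : MvPolynomial (Fin (N + 1)) ℂ) (D : ℕ) : Prop :=
  ∃ (M : ℕ) (C : ℝ), ∀ (f : ℂ → PN N) (F : ℂ → Fin (N + 1) → ℂ), HolomorphicInto f (Metric.ball 0 1) →
    (∀ z ∈ Metric.ball (0 : ℂ) 1, f z ∈ X) → AnalyticAt ℂ F 0 → (∀ᶠ z in nhds (0 : ℂ), Rep (F z) (f z)) →
    ∃ a : ℂ, (‖eval (F 0) Q‖ / ‖F 0‖ ^ D) ^ M * ‖deriv F 0 - a • F 0‖ ≤ C * ‖F 0‖

/-- **Main theorem.** -/
theorem result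
    -- `U` is a quasi-projective surface of log general type in the class
    (U : QSurface) (hU : OverGroup U) (hgt : U.LogGeneralType) :
    -- `U` has the four properties, with a set `Ξ`
    ∃ Ξ : Set (PN U.N), FourProperties U Ξ ∧
      -- if `U = X` is projective and smooth, then `Ξ` is the closure of the union of all non-constant entire curves
      (Projective U → SmoothOn U (cl U) → Ξ = closureIn (cl U) (entireCurves (cl U))) ∧
      -- if `U` is basic, or projective and smooth, then `U` is Kobayashi hyperbolic modulo a proper closed subset which contains `Ξ`, with an explicit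
      -- lower bound
      (IsBasicOver U ∨ (Projective U ∧ SmoothOn U (cl U)) →
        ∃ (Q : MvPolynomial (Fin (U.N + 1)) ℂ) (D : ℕ), Q.IsHomogeneous D ∧ (∃ x ∈ pts U, ¬ VanishesAt Q x) ∧ (∀ x ∈ Ξ, VanishesAt Q x) ∧
          KobayashiHyperbolicModulo (pts U) Q D) := by
  obtain ⟨Ξ, h, h1, h2⟩ := hU.final hgt
  exact ⟨Ξ, ⟨⟨h.closed, h.proper⟩, hgt, h.picard, h.brody, h.strongly⟩, h1, h2⟩

end Pool.Agent.Results.MP_64ff02_ag.OverCurves
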