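import Pool.Agent.H17R.General
import Pool.Agent.H17R.Few
import Pool.Agent.H17R.Refine

/-!
# The Green–Griffiths–Lang conjecture for varieties with a relation between forms

The four properties of the Green–Griffiths–Lang conjecture hold, with an explicit exceptional set,
for every irreducible hypersurface `∑ x_l ^ e * G_l = 0` with arbitrary forms `G_l ≠ 0` of small
degree (in particular for every smooth hypersurface of this form, that is, for all smooth members of
a linear system), for the complements of all these hypersurfaces, for the smooth hypersurfaces of large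
degree with few monomials and their complements, and generally for varieties with a relation
between forms of large degree.
-/

open MvPolynomial
open Pool.Agent.H17 (PN VanishesAt)
open Pool.Agent.H62.FC (Homog)
open Pool.Agent.H17R

namespace Pool.Agent.Results.MP_64ff02_ag.Relations

theorem bound_hyp {N δ e M : ℕ} (hd : (N + 1) * (M * (δ + 1) + δ) < e + δ) (hM : 1 ≤ M) : δ < e := by
  nlinarith [Nat.zero_le (M * δ), Nat.zero_le (N * (M * (δ + 1) + δ))]

theorem large_hyp {N δ e M : ℕ} (hd : (N + 1) * (M * (δ + 1) + δ) < e + δ) :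
    LargeDegree M 1 (e + δ) (N + 1) ∅ (fun _ : Fin (N + 1) => δ) := by
  unfold LargeDegree
  simp only [Finset.card_empty, tsub_zero, one_mul, Finset.sum_const, Finset.card_univ,
    Fintype.card_fin, smul_eq_mul]
  refine lt_of_le_of_lt (le_of_eq ?_) hd
  ring

theorem large_compl {N δ e M : ℕ} (hd : (N + 1) * (M * (δ + 1) + δ) < e + δ) :
    LargeDegree M 1 (e + δ) (N + 1) ∅ (Fin.snoc (fun _ => δ) 0 : Fin (N + 1 + 1) → ℕ) := by
  unfold LargeDegree
  rw [Fin.sum_univ_castSucc]
  simp only [Fin.snoc_castSucc, Fin.snoc_last, Finset.card_empty, tsub_zero, one_mul,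
    Finset.sum_const, Finset.card_univ, Fintype.card_fin, smul_eq_mul, add_zero]
  refine lt_of_le_of_lt (le_of_eq ?_) hd
  ring

/-- **Main theorem.**  Let `M` be a bound for the loss of a relation with `k` terms
(`LossBound k M`: `M = 1, 3, 6, 12, …` for `k = 3, 4, 5, 6, …`).

* Let `F = ∑ X l ^ e * G l` with arbitrary forms `G l` of degree `δ` be smooth, or irreducible with
  all `G l ≠ 0`, and let `(N + 1) (M (δ + 1) + δ) < e + δ` for a bound `M` for `k = N + 1`.  The
  four properties of the Green–Griffiths–Lang conjecture hold for the hypersurface `F = 0`; the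
  exceptional set is the set of the points at which a proper partial sum of the forms
  `X l ^ e * G l` vanishes.  If `3 ≤ N` and the hypersurface contains no coordinate point, then the
  partial sums with at least two and at most `N - 1` terms are sufficient.
* They hold for the complement of `F = 0` in `ℙ^N` if `F` is smooth or all `G l ≠ 0` (`F` need not be
  irreducible), with a bound `M` for `k = N + 2`.
* They hold for every smooth hypersurface `F = 0` of degree `d > (N + 1) (2 M + 1)`, where `M` is a
  bound for the number `k` of the monomials of `F`, and for the complement, with a bound `M` for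
  `k + 1`.
* In general they hold for every irreducible variety `V(P) ∖ {∏ H m = 0}` with a relation of large
  degree. -/
theorem result :
    -- hypersurfaces `∑ X l ^ e * G l = 0`
    (∀ {N δ e M : ℕ} (G : Fin (N + 1) → MvPolynomial (Fin (N + 1)) ℂ), 2 ≤ N →
      (∀ l, (G l).IsHomogeneous δ) → LossBound (N + 1) M →
      (N + 1) * (M * (δ + 1) + δ) < e + δ →
      (IsSmooth (∑ l, X l ^ e * G l) ∨ Irreducible (∑ l, X l ^ e * G l) ∧ ∀ l, G l ≠ 0) →
      ∃ _ : (Ideal.span {∑ l, X l ^ e * G l}).IsPrime,
        GGLWith (Ideal.span {∑ l, X l ^ e * G l}) (Fin.elim0 : Fin 0 → _)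
          (subsumLocus (openVar (Ideal.span {∑ l, X l ^ e * G l}) (Fin.elim0 : Fin 0 → _))
            fun l => X l ^ e * G l) ∧
        (3 ≤ N → (∀ l, eval (Pi.single l 1) (G l) ≠ 0) →
          GGLWith (Ideal.span {∑ l, X l ^ e * G l}) (Fin.elim0 : Fin 0 → _)
            (middleLocus (openVar (Ideal.span {∑ l, X l ^ e * G l}) (Fin.elim0 : Fin 0 → _))
              fun l => X l ^ e * G l))) ∧
    -- their complements
    (∀ {N δ e M : ℕ} (G : Fin (N + 1) → MvPolynomial (Fin (N + 1)) ℂ), 1 ≤ N →
      (∀ l, (G l).IsHomogeneous δ) → LossBound (N + 2) M →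
      (N + 1) * (M * (δ + 1) + δ) < e + δ →
      (IsSmooth (∑ l, X l ^ e * G l) ∨ ∀ l, G l ≠ 0) →
      GGLWith ⊥ (fun _ : Fin 1 => ∑ l, X l ^ e * G l)
        (subsumLocus (openVar ⊥ fun _ : Fin 1 => ∑ l, X l ^ e * G l) fun l => X l ^ e * G l)) ∧
    -- hypersurfaces with few monomials and their complements
    (∀ {N d M : ℕ} (F : MvPolynomial (Fin (N + 1)) ℂ), 2 ≤ N → F.IsHomogeneous d → IsSmooth F →
      (LossBound F.support.card M → (N + 1) * (2 * M + 1) < d →
        ∃ _ : (Ideal.span {F}).IsPrime, GGLWith (Ideal.span {F}) (Fin.elim0 : Fin 0 → _)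
          (monomialLocus (openVar (Ideal.span {F}) (Fin.elim0 : Fin 0 → _)) F)) ∧
      (LossBound (F.support.card + 1) M → (N + 1) * (2 * M + 1) < d →
        GGLWith ⊥ (fun _ : Fin 1 => F) (monomialLocus (openVar ⊥ fun _ : Fin 1 => F) F))) ∧
    -- the general case
    (∀ {N b q k a d M : ℕ} (P : Ideal (MvPolynomial (Fin (N + 1)) ℂ)) [P.IsPrime]
      (H : Fin b → MvPolynomial (Fin (N + 1)) ℂ) (A : Fin q → MvPolynomial (Fin (N + 1)) ℂ)
      (O : Finset (Fin q)) (T G : Fin k → MvPolynomial (Fin (N + 1)) ℂ) (δ : Fin k → ℕ),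
      Homog P → (∀ m, ∃ n, (H m).IsHomogeneous n) → (∀ m, H m ∉ P) →
      IsRelation P H A O T G a d δ → LossBound k M → LargeDegree M a d q O δ →
      GGLWith P H (subsumLocus (openVar P H) T)) := by
  refine ⟨?_, ?_, ?_, ?_⟩
  · intro N δ e M G hN hG hM hd hF
    have hδ : δ < e := bound_hyp hd hM.1
    have he : 2 ≤ e := by
      have h1 : (N + 1) * (M * (δ + 1) + δ) ≥ 3 * 1 :=
        Nat.mul_le_mul (by omega) (by nlinarith [hM.1, Nat.zero_le (M * δ)])
      by_contra hcon
      have h2 : e = 1 := by omega
      have h3 : δ = 0 := by omega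
      subst h2 h3
      omega
    have hhom : (∑ l, X l ^ e * G l).IsHomogeneous (e + δ) := by
      refine IsHomogeneous.sum _ _ _ fun l _ => ?_
      have := (isHomogeneous_X_pow (R := ℂ) l e).mul (hG l)
      exact this
    have hirr : Irreducible (∑ l, X l ^ e * G l) := by
      rcases hF with hF | hF
      · exact irreducible_of_smooth hN (by omega) hhom hF
      · exact hF.1
    have hG0 : ∀ l, G l ≠ 0 := by
      rcases hF with hF | hF
      · exact ne_zero_of_smooth he hF
      · exact hF.2
    have hp := isPrime_span hirr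
    refine ⟨hp, gglWith_of_relation (homog_span hhom) (fun m => m.elim0) (fun m => m.elim0)
      (isRelation_hyp (by omega) hδ hG hG0) hM (large_hyp hd), fun hN3 hG1 => ?_⟩
    exact gglWith_refined (κ := N) (homog_span hhom) (fun m => m.elim0) (fun m => m.elim0)
      (isPowerRelation_hyp (by omega) hδ hG hG1) hN3 hM (large_hyp hd)
  · intro N δ e M G hN hG hM hd hF
    have hδ : δ < e := bound_hyp hd hM.1
    have he : 2 ≤ e := by
      have h1 : (N + 1) * (M * (δ + 1) + δ) ≥ 2 * 1 :=
        Nat.mul_le_mul (by omega) (by nlinarith [hM.1, Nat.zero_le (M * δ)])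
      by_contra hcon
      have h2 : e = 1 := by omega
      have h3 : δ = 0 := by omega
      subst h2 h3
      omega
    have hhom : (∑ l, X l ^ e * G l).IsHomogeneous (e + δ) := by
      refine IsHomogeneous.sum _ _ _ fun l _ => ?_
      have := (isHomogeneous_X_pow (R := ℂ) l e).mul (hG l)
      exact this
    have hG0 : ∀ l, G l ≠ 0 := by
      rcases hF with hF | hF
      · exact ne_zero_of_smooth he hF
      · exact hF
    have hrel := isRelation_compl hN hδ hG hG0
    have hbot : Homog (⊥ : Ideal (MvPolynomial (Fin (N + 1)) ℂ)) := by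
      intro p hp n
      rw [Ideal.mem_bot] at hp
      rw [hp, map_zero]
      exact zero_mem _
    have hF0 : ∑ l, X l ^ e * G l ≠ 0 := by
      intro h0
      exact hG0 0 (eq_zero_of_sum hδ hG h0 0)
    have := gglWith_of_relation hbot (fun _ => ⟨e + δ, hhom⟩)
      (fun _ => by rw [Ideal.mem_bot]; exact hF0) hrel hM (large_compl hd)
    rw [subsumLocus_compl (fun l => X l ^ e * G l) (fun x hx => hx.2 0)] at this
    exact this
  · intro N d M F hN hF hs
    have hlarge : ∀ {k : ℕ} (δ : Fin k → ℕ), ∑ i, δ i ≤ N + 1 → (N + 1) * (2 * M + 1) < d →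
        LargeDegree M 1 d (N + 1) ∅ δ := by
      intro k δ hδ hd
      unfold LargeDegree
      simp only [Finset.card_empty, tsub_zero, one_mul]
      refine lt_of_le_of_lt ?_ hd
      calc M * (N + 1 + ∑ i, δ i) + ∑ i, δ i ≤ M * (N + 1 + (N + 1)) + (N + 1) := by gcongr
        _ = (N + 1) * (2 * M + 1) := by ring
    have hd3 : ∀ {k : ℕ}, LossBound k M → (N + 1) * (2 * M + 1) < d → 3 ≤ d := by
      intro k hM hd
      have h1 : 3 * 3 ≤ (N + 1) * (2 * M + 1) :=
        Nat.mul_le_mul (by omega) (by have := hM.1; omega)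
      omega
    refine ⟨fun hM hd => ?_, fun hM hd => ?_⟩
    · obtain ⟨T, G, δ, hT, hΞ, hδ, hR, -⟩ := exists_relation_few (by omega) (hd3 hM hd) hF hs
      have hp := isPrime_span (irreducible_of_smooth hN (by have := hd3 hM hd; omega) hF hs)
      refine ⟨hp, ?_⟩
      rw [← hΞ]
      exact gglWith_of_relation (homog_span hF) (fun m => m.elim0) (fun m => m.elim0) hR hM
        (hlarge δ hδ hd)
    · obtain ⟨T, G, δ, hT, hΞ, hδ, -, hR⟩ := exists_relation_few (by omega) (hd3 hM hd) hF hs
      have hF0 : F ≠ 0 := by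
        rintro rfl
        obtain ⟨i, hi⟩ := hs (Pi.single 0 1) (by simp) (by simp)
        simp at hi
      have hbot : Homog (⊥ : Ideal (MvPolynomial (Fin (N + 1)) ℂ)) := by
        intro p hp n
        rw [Ideal.mem_bot] at hp
        rw [hp, map_zero]
        exact zero_mem _
      have h1 := gglWith_of_relation hbot (fun _ => ⟨d, hF⟩)
        (fun _ => by rw [Ideal.mem_bot]; exact hF0) hR hM
        (hlarge _ (by rw [Fin.sum_univ_castSucc]; simpa using hδ) hd)
      have h2 : subsumLocus (openVar ⊥ fun _ : Fin 1 => F)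
          (Fin.snoc T (-F) : Fin (F.support.card + 1) → MvPolynomial (Fin (N + 1)) ℂ) =
          monomialLocus (openVar ⊥ fun _ : Fin 1 => F) F := by
        have h3 := subsumLocus_compl (Y := openVar ⊥ fun _ : Fin 1 => F) T
          (fun x hx => by rw [hT]; exact hx.2 0)
        rw [hT] at h3
        rw [h3, ← hΞ]
        rfl
      rw [← h2]
      exact h1
  · intro N b q k a d M P _ H A O T G δ hP hH hHP hR hM hd
    exact gglWith_of_relation hP hH hHP hR hM hd

end Pool.Agent.Results.MP_64ff02_ag.Relations
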