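import Pool.Agent.TC.GKFin
import Pool.Agent.TC.GKEx

/-!
# The Green–Griffiths–Lang conjecture for the complement of two curves

**The plane.**  Let `C₀`, `C₁` be smooth curves in `ℙ²` of degrees `d₀`, `d₁` which meet transversally, `d₀ + d₁ ≥ 4`.  Then the four
properties of the conjecture hold for `U = ℙ² ∖ (C₀ ∪ C₁)`.

**Surfaces.**  The same is true for `U = V ∖ (C₀ ∪ C₁)`, where `V ⊆ ℙ^(n+2)` is a surface which is a smooth complete intersection of
hypersurfaces of degrees `a₀, …, a_(n-1)`, and `C₀`, `C₁` are smooth sections of `V` by hypersurfaces of degrees `d₀`, `d₁`, which meet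
transversally, if `K_V + C₀ + C₁` is ample, that is, if `∑ a_j + d₀ + d₁ ≥ n + 4`.

**Very general pairs.**  If `C₀`, `C₁` are very general plane curves and `d₀ + d₁ ≥ 5` then the exceptional set is empty: all holomorphic
maps `ℂ → ℙ² ∖ (C₀ ∪ C₁)` are constant and all holomorphic maps from the punctured disc to `ℙ² ∖ (C₀ ∪ C₁)` extend to the disc (the logarithmic
Kobayashi conjecture for plane curves with two components).
-/

open MvPolynomial
open Pool.Agent.H17 (PN)
open Pool.Agent.H17R (GGLWith)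
open Pool.Agent.H17LG.Variety (FunField)
open Pool.Agent.H62.FC (Homog)

namespace Pool.Agent.Results.MP_64ff02_ag.TwoCurveComplements

/-- At every point `x` of the common zero locus `V` of the forms `F j`, the gradients of those of the forms `F j` and `G m` which
vanish at `x` are linearly independent.  So `V` is a smooth complete intersection, the divisors `G m = 0` of `V` are smooth, and
they meet transversally. -/
def NormalCrossings {N n s : ℕ} (F : Fin n → MvPolynomial (Fin (N + 1)) ℂ) (G : Fin s → MvPolynomial (Fin (N + 1)) ℂ) : Prop :=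
  ∀ x : Fin (N + 1) → ℂ, x ≠ 0 → (∀ j, eval x (F j) = 0) →
    LinearIndependent ℂ fun i : {i : Fin n ⊕ Fin s // eval x (Sum.elim F G i) = 0} =>
      fun k => eval x (pderiv k (Sum.elim F G i.1))

/-- The coefficients of the forms `G 0`, `G 1` of degrees `d 0`, `d 1` in three variables (the coefficients of all monomials of
these degrees) are algebraically independent over `ℚ`. -/
def VeryGeneral (d : Fin 2 → ℕ) (G : Fin 2 → MvPolynomial (Fin 3) ℂ) : Prop :=
  AlgebraicIndependent ℚ fun i : Σ m : Fin 2, {β : Fin 3 →₀ ℕ // β.degree = d m} => coeff i.2.1 (G i.1)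

/-- Very general pairs exist for all degrees. -/
theorem exists_veryGeneral (d : Fin 2 → ℕ) :
    ∃ G : Fin 2 → MvPolynomial (Fin 3) ℂ, (∀ m, (G m).IsHomogeneous (d m)) ∧ VeryGeneral d G :=
  Pool.Agent.TC.exists_generic d

/-- Very general pairs of curves are smooth and meet transversally. -/
theorem VeryGeneral.normalCrossings {d : Fin 2 → ℕ} {G : Fin 2 → MvPolynomial (Fin 3) ℂ} (h : VeryGeneral d G)
    (hG : ∀ m, (G m).IsHomogeneous (d m)) : NormalCrossings ![] G :=
  fun x hx _ => Pool.Agent.TC.Generic.normalCrossings h hG x hx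

/-- **Main theorem.** -/
theorem result :
    (∀ (d : Fin 2 → ℕ) (G : Fin 2 → MvPolynomial (Fin 3) ℂ), (∀ m, 1 ≤ d m) → 4 ≤ d 0 + d 1 →
      (∀ m, (G m).IsHomogeneous (d m)) → NormalCrossings ![] G → ∃ Ξ : Set (PN 2), GGLWith ⊥ G Ξ) ∧
    (∀ (n : ℕ) (a : Fin n → ℕ) (d : Fin 2 → ℕ) (F : Fin n → MvPolynomial (Fin (n + 3)) ℂ)
      (G : Fin 2 → MvPolynomial (Fin (n + 3)) ℂ), (∀ j, 1 ≤ a j) → (∀ m, 1 ≤ d m) → n + 4 ≤ ∑ j, a j + d 0 + d 1 →
      (∀ j, (F j).IsHomogeneous (a j)) → (∀ m, (G m).IsHomogeneous (d m)) → NormalCrossings F G →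
      ∀ (P : Ideal (MvPolynomial (Fin (n + 3)) ℂ)) [P.IsPrime], Homog P → (∀ j, F j ∈ P) →
        (∃ z : Fin 2 → FunField P, IsTranscendenceBasis ℂ z) → ∃ Ξ : Set (PN (n + 2)), GGLWith P G Ξ) ∧
    ∀ (d : Fin 2 → ℕ) (G : Fin 2 → MvPolynomial (Fin 3) ℂ), (∀ m, 1 ≤ d m) → 5 ≤ d 0 + d 1 →
      (∀ m, (G m).IsHomogeneous (d m)) → VeryGeneral d G → GGLWith ⊥ G ∅ := by
  refine ⟨?_, ?_, ?_⟩
  · intro d G hd hdeg hG hNC
    refine Pool.Agent.TC.main_nc (a := ![]) (F := ![]) (fun j => j.elim0) hd (by simpa using hdeg) (fun j => j.elim0) hG hNC ⊥ ?_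
      (fun j => j.elim0) Pool.Agent.TC.plane_dim
    intro p hp n
    rw [Ideal.mem_bot] at hp ⊢
    rw [hp, map_zero]
  · intro n a d F G ha hd hdeg hF hG hNC P _ hP hFP hdim
    exact Pool.Agent.TC.main_nc ha hd hdeg hF hG hNC P hP hFP hdim
  · intro d G hd hdeg hG hgen
    exact Pool.Agent.TC.main_generic hd hdeg hG hgen

end Pool.Agent.Results.MP_64ff02_ag.TwoCurveComplements
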