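import Pool.Agent.H66.CY.FMain

/-!
# The four Green-Griffiths-Lang properties fail for very general hypersurfaces of degree at most `n + 2`

Let `n ≥ 1`, `1 ≤ d ≤ n + 1`, or `n ≥ 3`, `d = n + 2`. A very general hypersurface `X` of degree `d` in `ℙ^(n+1)` (the
coefficients of its equation are algebraically independent over `ℚ`) is a smooth irreducible variety of dimension `n`,
which is neither of general type, nor pseudo Picard hyperbolic, nor pseudo Brody hyperbolic, nor strongly of general
type. So the properties (i)-(iv) are equivalent for `X`. The main case is `d = n + 2`: the very general Calabi-Yau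
hypersurfaces; there the proof is the Zariski density of the rational curves in `X`. Very general forms are dense.
-/

set_option autoImplicit false

noncomputable section

namespace Pool.Agent.Results.MP_64ff02_ag.VeryGeneralHypersurfaces

open Pool.Agent.H66.CY
open Pool.Agent.H17 (zeroLocus SmoothIntersection PseudoBrodyHyperbolic PseudoPicardHyperbolic)
open Pool.Agent.H17LG.Variety (FunField)
open Pool.Agent.H62.FC (closureIn LogGeneralType StronglyLogGeneralType)

theorem result {n d : ℕ} (hn : 1 ≤ n) (hd : 1 ≤ d) (hnd : d ≤ n + 1 ∨ (3 ≤ n ∧ d = n + 2)) :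
    (∀ F : MvPolynomial (Fin (n + 2)) ℂ, F.IsHomogeneous d → Generic d F →
      SmoothIntersection (fun _ : Fin 1 => F) ∧
      ∃ _ : (Ideal.span {F}).IsPrime,
        (∃ z : Fin n → FunField (Ideal.span {F}), IsTranscendenceBasis ℂ z) ∧
        ¬ LogGeneralType (Ideal.span {F}) ∅ n ∧
        ¬ PseudoPicardHyperbolic (zeroLocus fun _ : Fin 1 => F) ∧
        ¬ PseudoBrodyHyperbolic (zeroLocus fun _ : Fin 1 => F) ∧
        ¬ StronglyLogGeneralType (Ideal.span {F}) ∅ ∧
        closureIn (zeroLocus fun _ : Fin 1 => F) (rationalCurves (zeroLocus fun _ : Fin 1 => F)) =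
          (zeroLocus fun _ : Fin 1 => F)) ∧
    ∀ F₀ : MvPolynomial (Fin (n + 2)) ℂ, F₀.IsHomogeneous d → ∀ ε : ℝ, 0 < ε →
      ∃ F : MvPolynomial (Fin (n + 2)) ℂ, F.IsHomogeneous d ∧ Generic d F ∧ NearF ε F₀ F := by
  refine ⟨fun F hF gF => ?_, fun F₀ h₀ ε hε => near_main F₀ h₀ hε⟩
  obtain ⟨hs, hP, hz, -⟩ := variety_main hn hd (by omega) hF gF
  obtain ⟨h1, h2, h3, h4⟩ := ggl_main hn hd hnd hF gF
  exact ⟨hs, hP, hz, h1, h2, h3, h4, dense_main hn hd hnd hF gF⟩

end Pool.Agent.Results.MP_64ff02_ag.VeryGeneralHypersurfaces
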